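import Pool.Agent.H42.LogS.Main
import Pool.Agent.H42.Log.P1

/-!
**P1** with the mass in all even shells before the blow-up time.
-/

open Set Filter Topology

namespace Pool.Agent.H42.LogS

open Pool.Agent.H42.Mix (RD mono_of_rd exists_antideriv)
open Pool.Agent.H39.Log (IsSolS alS beS gainS S_P1)
open Pool.Agent.H39.Dy (Rapid)
open Pool.Agent.H42.Log

/-- the statement -/
def S_P1s : Prop := ∃ al : ℕ → ℝ, (∀ n, 0 < al n ∧ al n ≤ 1) ∧
  ∀ γ : ℝ, 1 < γ → ∀ M T : ℝ, 0 < T → ∃ A₀ : ℝ, ∀ A, A₀ ≤ A → ∀ d : ℕ → ℝ,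
    (∀ n, 0 ≤ d n ∧ d n ≤ M * ((2 : ℝ) ^ (5 / 2 : ℝ)) ^ n / ((n : ℝ) + 1) ^ γ) →
    (¬ ∃ X : ℕ → ℝ → ℝ, IsSolS (alS al) beS ((2 : ℝ) ^ (5 / 2 : ℝ)) d T X ∧ Rapid T X ∧ X 0 0 = A ∧
      ∀ n, 1 ≤ n → X n 0 = 0) ∧
    ∀ (T₀ : ℝ) (X : ℕ → ℝ → ℝ), 0 < T₀ → X 0 0 = A → (∀ n, 1 ≤ n → X n 0 = 0) →
      (∀ T', 0 ≤ T' → T' < T₀ → IsSolS (alS al) beS ((2 : ℝ) ^ (5 / 2 : ℝ)) d T' X ∧ Rapid T' X) →
      (∀ K : ℝ, ∃ n, ∃ t ∈ Ico 0 T₀, K < ((2 : ℝ) ^ (5 / 2 : ℝ)) ^ n * |X n t|) →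
      ∀ n, ∃ t ∈ Ico 0 T₀, 95 / 100 * A ≤ X (2 * n) t

theorem p1s : S_P1s := by
  refine ⟨alN, fun n => ⟨al_pos n, ?_⟩, ?_⟩
  · simp only [alN]
    rw [div_le_one (pow_pos (NN_pos n) _)]
    exact one_le_pow₀ (by linarith [NN_ge n])
  intro γ hγ M T hT
  obtain ⟨C, hC0, hC⟩ := sum_bound hγ
  refine ⟨max 1 (max (32 * |M| * C * 10 ^ 5) (2 * 10 ^ 8 / T)), ?_⟩
  intro A hA d hd
  have hA1 : 1 ≤ A := (le_max_left _ _).trans hA
  have hA0 : 0 < A := by linarith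
  have hA2 : 32 * |M| * C * 10 ^ 5 ≤ A := (le_max_left _ _).trans ((le_max_right _ _).trans hA)
  have hA3 : 2 * 10 ^ 8 / T ≤ A := (le_max_right _ _).trans ((le_max_right _ _).trans hA)
  set D : ℕ → ℝ := fun n => 32 * |M| / (A * ((n : ℝ) + 1) ^ γ) with hD
  have hdb : ∀ i n : ℕ, n ≤ i → BB ^ i ≤ 32 * 32 ^ n → d i / A ≤ D n * 32 ^ n := by
    intro i n hin hBi
    have hn0 : (0 : ℝ) < ((n : ℝ) + 1) ^ γ := by positivity
    have hi0 : (0 : ℝ) < ((i : ℝ) + 1) ^ γ := by positivity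
    have h1 := (hd i).2
    have h2 : M * BB ^ i / ((i : ℝ) + 1) ^ γ ≤ |M| * (32 * 32 ^ n) / ((n : ℝ) + 1) ^ γ := by
      have h3 : ((n : ℝ) + 1) ^ γ ≤ ((i : ℝ) + 1) ^ γ := by
        apply Real.rpow_le_rpow (by positivity) _ (by linarith)
        have : (n : ℝ) ≤ i := by exact_mod_cast hin
        linarith
      have h4 : M * BB ^ i ≤ |M| * (32 * 32 ^ n) := by
        have h5 : M * BB ^ i ≤ |M| * BB ^ i :=
          mul_le_mul_of_nonneg_right (le_abs_self M) (pow_pos BB_pos i).le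
        have h6 : |M| * BB ^ i ≤ |M| * (32 * 32 ^ n) :=
          mul_le_mul_of_nonneg_left hBi (abs_nonneg M)
        linarith
      calc M * BB ^ i / ((i : ℝ) + 1) ^ γ ≤ |M| * (32 * 32 ^ n) / ((i : ℝ) + 1) ^ γ := by
            gcongr
        _ ≤ |M| * (32 * 32 ^ n) / ((n : ℝ) + 1) ^ γ := by
            gcongr
    have h3 : D n * 32 ^ n = |M| * (32 * 32 ^ n) / ((n : ℝ) + 1) ^ γ / A := by
      rw [hD]
      field_simp
    rw [h3]
    gcongr
    exact h1.trans h2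
  have hDs : Ds D (fun k => d (2 * k) / A) (fun k => d (2 * k + 1) / A) := by
    refine ⟨fun n => by rw [hD]; positivity, ?_, ?_, ?_, ?_⟩
    · intro n
      cases n with
      | zero =>
        simp only [pn]
        rw [hD]
        positivity
      | succ m =>
        simp only [pn]
        apply hdb (2 * m + 1) (m + 1) (by omega)
        rw [BB_odd, pow_succ]
        have h1 := BB_le
        have h2 : (0 : ℝ) < 32 ^ m := by positivity
        nlinarith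
    · intro n
      apply hdb (2 * n) n (by omega)
      rw [BB_even]
      have h2 : (0 : ℝ) < 32 ^ n := by positivity
      linarith
    · intro n
      apply hdb (2 * n + 1) n (by omega)
      rw [BB_odd]
      have h1 := BB_le
      have h2 : (0 : ℝ) < 32 ^ n := by positivity
      nlinarith
    · intro n
      apply hdb (2 * (n + 1)) n (by omega)
      rw [BB_even, pow_succ]
      linarith
  have hsum : ∀ n, ∑ j ∈ Finset.range n, D j * LN j ≤ 1 / 10 ^ 5 := by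
    intro n
    have h1 : ∑ j ∈ Finset.range n, D j * LN j =
        32 * |M| / A * ∑ j ∈ Finset.range n, LN j / ((j : ℝ) + 1) ^ γ := by
      rw [Finset.mul_sum]
      apply Finset.sum_congr rfl
      intro j _
      rw [hD]
      have : (0 : ℝ) < ((j : ℝ) + 1) ^ γ := by positivity
      field_simp
    rw [h1]
    have h2 : 32 * |M| / A * ∑ j ∈ Finset.range n, LN j / ((j : ℝ) + 1) ^ γ ≤ 32 * |M| / A * C :=
      mul_le_mul_of_nonneg_left (hC n) (by positivity)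
    refine h2.trans ?_
    rw [div_mul_eq_mul_div, div_le_div_iff₀ hA0 (by positivity)]
    linarith
  constructor
  · rintro ⟨X, hX, hr, hX0, hXn⟩
    have hbase := base_of_X hA0 (fun n => (hd n).1) hX hr hX0 hXn
    have hS : 2 * 10 ^ 8 ≤ A * T := by
      rw [div_le_iff₀ hT] at hA3
      exact hA3
    obtain ⟨C', hC'⟩ := hr 2 two_pos
    obtain ⟨n, hn⟩ := pow_unbounded_of_one_lt (2 * C' / A) (by norm_num : (1 : ℝ) < 4)
    obtain ⟨s, hs, hR⟩ := hbase.iterate hDs hsum hS n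
    have h1 := hR.h1
    have h2 := bet_ge (hsum n)
    have h3 : s / A ∈ Icc 0 T := by
      refine ⟨div_nonneg hs.1 hA0.le, ?_⟩
      rw [div_le_iff₀ hA0]
      have h4 : (0 : ℝ) < 1 / 16 ^ n := by positivity
      have h5 := hs.2
      nlinarith
    have h4 := hC' (2 * n) (s / A) h3
    have h5 : 95 / 100 * A ≤ X (2 * n) (s / A) := by
      have h6 : 95 / 100 ≤ X (2 * n) (s / A) / A := h2.trans h1
      rwa [le_div_iff₀ hA0] at h6
    have h6 : (2 : ℝ) ^ (2 * n) = 4 ^ n := by rw [pow_mul]; norm_num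
    rw [h6] at h4
    rw [div_lt_iff₀ hA0] at hn
    have h7 : 4 ^ n * (95 / 100 * A) ≤ 4 ^ n * |X (2 * n) (s / A)| :=
      mul_le_mul_of_nonneg_left (h5.trans (le_abs_self _)) (by positivity)
    have h8 : 0 < 4 ^ n * A := by positivity
    nlinarith

  · intro T₀ X hT₀ hX0 hXn hX hun n
    have hA' : A ≠ 0 := hA0.ne'
    have hB : ∀ S' ∈ Ico 0 (A * T₀), Bc (fun k => d (2 * k) / A) (fun k => d (2 * k + 1) / A) S'
        (fun k s => X (2 * k) (s / A) / A) (fun k s => X (2 * k + 1) (s / A) / A) := by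
      intro S' hS'
      have h1 : 0 ≤ S' / A := div_nonneg hS'.1 hA0.le
      have h2 : S' / A < T₀ := by rw [div_lt_iff₀ hA0]; linarith [hS'.2]
      have h3 := hX (S' / A) h1 h2
      have h4 := base_of_X hA0 (fun n => (hd n).1) h3.1 h3.2 hX0 hXn
      have h5 : A * (S' / A) = S' := by field_simp
      rwa [h5] at h4
    have hR : ∀ S' ∈ Ico 0 (A * T₀), ∃ C : ℝ, ∀ k, ∀ s ∈ Icc 0 S',
        32 ^ k * |X (2 * k) (s / A) / A| ≤ C ∧ 32 ^ k * |X (2 * k + 1) (s / A) / A| ≤ C := by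
      intro S' hS'
      have h1 : 0 ≤ S' / A := div_nonneg hS'.1 hA0.le
      have h2 : S' / A < T₀ := by rw [div_lt_iff₀ hA0]; linarith [hS'.2]
      obtain ⟨C, hC⟩ := (hX (S' / A) h1 h2).2 6 (by norm_num)
      refine ⟨C / A, ?_⟩
      intro k s hs
      have hs' : s / A ∈ Icc 0 (S' / A) := by
        refine ⟨div_nonneg hs.1 hA0.le, ?_⟩
        gcongr
        exact hs.2
      have e1 : (32 : ℝ) ^ k ≤ 6 ^ (2 * k) := by
        rw [pow_mul]
        exact pow_le_pow_left₀ (by norm_num) (by norm_num) k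
      have e2 : (32 : ℝ) ^ k ≤ 6 ^ (2 * k + 1) := by
        rw [pow_succ]
        have : (0 : ℝ) < 6 ^ (2 * k) := by positivity
        linarith
      rw [abs_div, abs_div, abs_of_pos hA0, ← mul_div_assoc, ← mul_div_assoc]
      constructor
      · gcongr
        exact (mul_le_mul_of_nonneg_right e1 (abs_nonneg _)).trans (hC (2 * k) _ hs')
      · gcongr
        exact (mul_le_mul_of_nonneg_right e2 (abs_nonneg _)).trans (hC (2 * k + 1) _ hs')
    have hU : ¬ ∃ C : ℝ, ∀ k, ∀ s ∈ Ico 0 (A * T₀),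
        32 ^ k * |X (2 * k) (s / A) / A| ≤ C ∧ 32 ^ k * |X (2 * k + 1) (s / A) / A| ≤ C := by
      rintro ⟨C, hC⟩
      obtain ⟨m, t, ht, hlt⟩ := hun (32 * (A * C))
      have hs : A * t ∈ Ico 0 (A * T₀) :=
        ⟨mul_nonneg hA0.le ht.1, mul_lt_mul_of_pos_left ht.2 hA0⟩
      have e0 : A * t / A = t := by field_simp
      have hC0 : 0 ≤ A * C := by
        have := (hC 0 (A * t) hs).1
        have : 0 ≤ C := le_trans (by positivity) this
        positivity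
      rcases Nat.even_or_odd' m with ⟨k, rfl | rfl⟩
      · have h1 := (hC k (A * t) hs).1
        rw [e0, abs_div, abs_of_pos hA0, ← mul_div_assoc, div_le_iff₀ hA0] at h1
        rw [show ((2 : ℝ) ^ (5 / 2 : ℝ)) ^ (2 * k) = 32 ^ k from BB_even k] at hlt
        linarith
      · have h1 := (hC k (A * t) hs).2
        rw [e0, abs_div, abs_of_pos hA0, ← mul_div_assoc, div_le_iff₀ hA0] at h1
        rw [show ((2 : ℝ) ^ (5 / 2 : ℝ)) ^ (2 * k + 1) = 32 ^ k * BB from BB_odd k] at hlt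
        have h2 : 32 ^ k * BB * |X (2 * k + 1) t| ≤ 32 * (32 ^ k * |X (2 * k + 1) t|) := by
          have h3 : 0 ≤ 32 ^ k * |X (2 * k + 1) t| := by positivity
          have := mul_le_mul_of_nonneg_right BB_le h3
          linarith
        linarith
    obtain ⟨s, hs, hRs⟩ := all_stages (mul_pos hA0 hT₀) hB hDs hsum hR hU n
    refine ⟨s / A, ⟨div_nonneg hs.1 hA0.le, by rw [div_lt_iff₀ hA0]; linarith [hs.2]⟩, ?_⟩
    have h2 := (bet_ge (hsum n)).trans hRs.h1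
    rwa [le_div_iff₀ hA0] at h2

/-- the times of the previous statement converge to the blow-up time -/
lemma late {T₀ A : ℝ} (hA : 0 < A) {X : ℕ → ℝ → ℝ} (hr : ∀ T', 0 ≤ T' → T' < T₀ → Rapid T' X)
    (h : ∀ n, ∃ t ∈ Ico 0 T₀, 95 / 100 * A ≤ X (2 * n) t) :
    ∀ t₁ ∈ Ico 0 T₀, ∃ N : ℕ, ∀ n, N ≤ n → ∃ t ∈ Ioo t₁ T₀, 95 / 100 * A ≤ X (2 * n) t := by
  intro t₁ ht₁
  obtain ⟨C, hC⟩ := hr t₁ ht₁.1 ht₁.2 2 two_pos
  obtain ⟨N, hN⟩ := pow_unbounded_of_one_lt (2 * C / A) (by norm_num : (1 : ℝ) < 4)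
  refine ⟨N, fun n hn => ?_⟩
  obtain ⟨t, ht, htX⟩ := h n
  refine ⟨t, ⟨?_, ht.2⟩, htX⟩
  by_contra hcon
  push Not at hcon
  have h1 := hC (2 * n) t ⟨ht.1, hcon⟩
  have h2 : (2 : ℝ) ^ (2 * n) = 4 ^ n := by rw [pow_mul]; norm_num
  have h3 : (4 : ℝ) ^ N ≤ 4 ^ n := pow_le_pow_right₀ (by norm_num) hn
  rw [h2] at h1
  rw [div_lt_iff₀ hA] at hN
  have h4 : 4 ^ n * (95 / 100 * A) ≤ 4 ^ n * |X (2 * n) t| :=
    mul_le_mul_of_nonneg_left (htX.trans (le_abs_self _)) (by positivity)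
  have h5 : 4 ^ N * A ≤ 4 ^ n * A := mul_le_mul_of_nonneg_right h3 hA.le
  have h6 : 0 < 4 ^ n * A := by positivity
  nlinarith

end Pool.Agent.H42.LogS
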