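import Pool.Agent.H42.LogS.Iter

/-!
Every stage of the cascade is completed before the blow-up time.
-/

open Set Filter Topology

namespace Pool.Agent.H42.LogS

open Pool.Agent.H42.Mix (RD mono_of_rd exists_antideriv)
open Pool.Agent.H42.Log

variable {e f : ℕ → ℝ} {S : ℝ} {b a : ℕ → ℝ → ℝ}

/-- one stage of the base chain, for a solution which may stop before the end of the stage -/
lemma step' (h : Bc e f S b a) {D : ℕ → ℝ} (hD : Ds D e f) {n : ℕ} {s β : ℝ}
    (hDL : D n * LN n ≤ 1 / 10 ^ 5) (hβ : 95 / 100 ≤ β) (hs : 0 ≤ s)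
    (hS : s ≤ S) (hR : Ready alN (thN n) n s β b a) :
    (∃ s', s ≤ s' ∧ s' ≤ S ∧
      Ready alN (thN (n + 1)) (n + 1) s' (β - (2 / NN n ^ 2 + 15 * (D n * LN n))) b a) ∨
    ∀ j N : ℕ, ∀ u ∈ Icc s S, E b a (n + 2 + j) N u ≤ (thN (n + 1) / 32 ^ (j + 1)) ^ 2 := by
  have hr : (0 : ℝ) < 32 ^ n := by positivity
  set S' := min (LN n) ((S - s) * 32 ^ n) with hS'
  have hL := LN_pos n
  have hS'0 : 0 ≤ S' := le_min (by linarith) (mul_nonneg (by linarith) hr.le)
  have hS'L : S' ≤ LN n := min_le_left _ _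
  have hS's : s + S' / 32 ^ n ≤ S := by
    have h1 : S' ≤ (S - s) * 32 ^ n := min_le_right _ _
    have h2 : S' / 32 ^ n ≤ S - s := by rwa [div_le_iff₀ hr]
    linarith
  have hsc := h.sys.scale (s0 := s) (r := 32 ^ n) (S' := S') hr hs hS's
  have hm : ∀ u ∈ Icc 0 S', s + u / 32 ^ n ∈ Icc 0 S := by
    intro u hu
    have h1 : 0 ≤ u / 32 ^ n := div_nonneg hu.1 hr.le
    have h2 : u / 32 ^ n ≤ S' / 32 ^ n := by gcongr; exact hu.2
    exact ⟨by linarith, by linarith⟩
  have hd : ∀ v, v ≤ D n * 32 ^ n → v / 32 ^ n ≤ D n := by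
    intro v hv
    rwa [div_le_iff₀ hr]
  have hSc : LogS.Sc (PN (D n) β n) alN (fun k => e k / 32 ^ n) (fun k => f k / 32 ^ n) S' n
      (fun k u => b k (s + u / 32 ^ n)) (fun k u => a k (s + u / 32 ^ n)) :=
  { S0 := hS'0
    SL := hS'L
    sys := hsc
    nu := nuN n (hD.D0 n) hDL hβ
    pos := fun k u hu => h.sys.pos h.E0 (fun k => (h.a0 k).ge) k _ (hm u hu)
    en := fun N u hu => h.sys.energy h.E0 N _ (hm u hu)
    am := rfl
    α := rfl
    ap := rfl
    θp := th_ratio n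
    dw := by
      have h1 : pn (fun k => f k / 32 ^ n) n = pn f n / 32 ^ n := by
        cases n with
        | zero => simp [pn]
        | succ m => rfl
      rw [h1]
      exact hd _ (hD.dw n)
    d0 := hd _ (hD.d0 n)
    d1 := hd _ (hD.d1 n)
    d2 := hd _ (hD.d2 n)
    ready := by
      have e0 : s + 0 / 32 ^ n = s := by simp
      refine ⟨?_, ?_, ?_, ?_⟩
      · simp only [e0]; exact hR.h1
      · simp only [e0]; exact hR.h2
      · intro j N
        have := hR.h3 j N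
        simp only [E] at this ⊢
        simp only [e0]
        exact this
      · intro j
        simp only [e0]
        exact hR.h4 j }
  rcases hSc.step with ⟨t, ht, hR'⟩ | ⟨hlt, hT⟩
  · left
    refine ⟨s + t / 32 ^ n, ?_, ?_, ?_, hR'.h2, hR'.h3, hR'.h4⟩
    · have : 0 ≤ t / 32 ^ n := div_nonneg ht.1 hr.le
      linarith
    · exact (hm t ht).2
    · have h1 := hR'.h1
      have h2 := lossN (D := D n) (β := β) n (hD.D0 n)
      refine le_trans ?_ h1
      have : (PN (D n) β n).β = β := rfl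
      rw [this]
      linarith
  · right
    have hlt' : S' < LN n := hlt
    have hS2 : S' = (S - s) * 32 ^ n := by
      rcases min_choice (LN n) ((S - s) * 32 ^ n) with h1 | h1
      · rw [hS', h1] at hlt'
        exact absurd hlt' (lt_irrefl _)
      · rw [hS', h1]
    intro j N u hu
    have h1 := hT j N ((u - s) * 32 ^ n) ⟨mul_nonneg (by linarith [hu.1]) hr.le, by
      rw [hS2]
      apply mul_le_mul_of_nonneg_right _ hr.le
      linarith [hu.2]⟩
    have h2 : s + (u - s) * 32 ^ n / 32 ^ n = u := by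
      field_simp
      ring
    simp only [E] at h1 ⊢
    simp only [h2] at h1
    exact h1

lemma ready0 (h : Bc e f S b a) {D : ℕ → ℝ} : Ready alN (thN 0) 0 0 (bet D 0) b a := by
  refine ⟨?_, ?_, ?_, ?_⟩
  · rw [h.b0]
    simp only [bet, NN]
    norm_num
  · rw [h.a0 0]; exact (th_pos 0).le
  · intro j N
    have : E b a (0 + 1 + j) N 0 = 0 := by
      apply Finset.sum_eq_zero
      intro i hi
      obtain ⟨m, rfl⟩ : ∃ m, i = m + 1 := ⟨i - 1, by
        have := (Finset.mem_Ico.1 hi).1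
        omega⟩
      rw [h.a0, h.bn]
      ring
    rw [this]
    exact sq_nonneg _
  · intro j
    rw [h.a0]
    exact mul_nonneg (al_pos _).le (div_nonneg (th_pos 0).le (pow_nonneg (by norm_num) _))

/-- **All stages are completed before the blow-up.** -/
theorem all_stages {S₀ : ℝ} (hS₀ : 0 < S₀) (hB : ∀ S' ∈ Ico 0 S₀, Bc e f S' b a)
    {D : ℕ → ℝ} (hD : Ds D e f) (hsum : ∀ n, ∑ j ∈ Finset.range n, D j * LN j ≤ 1 / 10 ^ 5)
    (hR : ∀ S' ∈ Ico 0 S₀, ∃ C : ℝ, ∀ k, ∀ s ∈ Icc 0 S', 32 ^ k * |b k s| ≤ C ∧ 32 ^ k * |a k s| ≤ C)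
    (hU : ¬ ∃ C : ℝ, ∀ k, ∀ s ∈ Ico 0 S₀, 32 ^ k * |b k s| ≤ C ∧ 32 ^ k * |a k s| ≤ C) (n : ℕ) :
    ∃ s ∈ Ico 0 S₀, Ready alN (thN n) n s (bet D n) b a := by
  induction n with
  | zero => exact ⟨0, ⟨le_rfl, hS₀⟩, ready0 (hB 0 ⟨le_rfl, hS₀⟩)⟩
  | succ n ih =>
    obtain ⟨s, hs, hRn⟩ := ih
    have hDL : D n * LN n ≤ 1 / 10 ^ 5 := by
      have h1 := hsum (n + 1)
      rw [Finset.sum_range_succ] at h1
      have h2 : 0 ≤ ∑ j ∈ Finset.range n, D j * LN j :=
        Finset.sum_nonneg fun j _ => mul_nonneg (hD.D0 j) (by linarith [LN_pos j])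
      linarith
    by_contra hcon
    push Not at hcon
    have hT : ∀ u ∈ Ico s S₀, ∀ j N : ℕ, E b a (n + 2 + j) N u ≤ (thN (n + 1) / 32 ^ (j + 1)) ^ 2 := by
      intro u hu j N
      rcases step' (hB u ⟨hs.1.trans hu.1, hu.2⟩) hD hDL (bet_ge (hsum n)) hs.1 hu.1 hRn with
        ⟨s', h1, h2, hR'⟩ | h1
      · exfalso
        apply hcon s' ⟨hs.1.trans h1, h2.trans_lt hu.2⟩
        exact ⟨(bet_succ n).trans hR'.h1, hR'.h2, hR'.h3, hR'.h4⟩
      · exact h1 j N u ⟨hu.1, le_rfl⟩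
    apply hU
    obtain ⟨C, hC⟩ := hR s hs
    have hth := th_pos (n + 1)
    refine ⟨max C (32 ^ (n + 1) * (1 + thN (n + 1))), ?_⟩
    intro k u hu
    rcases le_or_gt u s with hus | hus
    · have := hC k u ⟨hu.1, hus⟩
      exact ⟨this.1.trans (le_max_left _ _), this.2.trans (le_max_left _ _)⟩
    have key : |b k u| ≤ 1 ∧ |a k u| ≤ 1 := by
      have hBu := hB u hu
      have h1 := hBu.sys.energy hBu.E0 (k + 1) u ⟨hu.1, le_rfl⟩
      exact ⟨abs_b_le zero_le_one (Nat.zero_le k) (Nat.lt_succ_self k) (by rwa [one_pow]),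
        abs_a_le zero_le_one (Nat.zero_le k) (Nat.lt_succ_self k) (by rwa [one_pow])⟩
    have hfin : ∀ v : ℝ, |v| ≤ 1 → (∀ j, k = n + 2 + j → |v| ≤ thN (n + 1) / 32 ^ (j + 1)) →
        32 ^ k * |v| ≤ 32 ^ (n + 1) * (1 + thN (n + 1)) := by
      intro v hv hv2
      rcases Nat.lt_or_ge k (n + 2) with hk | hk
      · have h1 : (32 : ℝ) ^ k ≤ 32 ^ (n + 1) := pow_le_pow_right₀ (by norm_num) (by omega)
        calc 32 ^ k * |v| ≤ 32 ^ (n + 1) * 1 := mul_le_mul h1 hv (abs_nonneg _) (by positivity)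
          _ ≤ 32 ^ (n + 1) * (1 + thN (n + 1)) := by
            apply mul_le_mul_of_nonneg_left _ (by positivity)
            linarith
      · obtain ⟨j, rfl⟩ : ∃ j, k = n + 2 + j := ⟨k - (n + 2), by omega⟩
        have h1 := hv2 j rfl
        have h2 : (32 : ℝ) ^ (n + 2 + j) = 32 ^ (n + 1) * 32 ^ (j + 1) := by
          rw [← pow_add]; congr 1; ring
        calc (32 : ℝ) ^ (n + 2 + j) * |v| ≤ 32 ^ (n + 2 + j) * (thN (n + 1) / 32 ^ (j + 1)) := by
              gcongr
          _ = 32 ^ (n + 1) * thN (n + 1) := by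
            rw [h2]
            field_simp
          _ ≤ 32 ^ (n + 1) * (1 + thN (n + 1)) := by
            apply mul_le_mul_of_nonneg_left _ (by positivity)
            linarith
    constructor
    · refine (hfin (b k u) key.1 ?_).trans (le_max_right _ _)
      rintro j rfl
      exact abs_b_le (by positivity) le_rfl (Nat.lt_succ_self _)
        (hT u ⟨hus.le, hu.2⟩ j (n + 2 + j + 1))
    · refine (hfin (a k u) key.2 ?_).trans (le_max_right _ _)
      rintro j rfl
      exact abs_a_le (by positivity) le_rfl (Nat.lt_succ_self _)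
        (hT u ⟨hus.le, hu.2⟩ j (n + 2 + j + 1))

end Pool.Agent.H42.LogS
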